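import Pool.Agent.TH456.PW.One

/-!
# `x ^ x` for almost all rational multiples `x` of `e`, `e ^ (e t)` and `e ^ (e ^ t)` for almost all rationals `t`
-/

set_option autoImplicit false

namespace Pool.Agent.Results.MP_58ae59_nt.AlmostAllRationalMultiples

/-- the number `e` -/
noncomputable def e : ℝ := Real.exp 1

/-- the six numbers `log t`, `t ^ e`, `e ^ (e t)`, `t ^ (e t)`, `e ^ t`, `e ^ (e ^ t)`; the product of the third and the
fourth is `(e t) ^ (e t)` -/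
noncomputable def numbers (t : ℝ) : Fin 6 → ℝ :=
  ![Real.log t, t ^ e, e ^ (e * t), t ^ (e * t), e ^ t, e ^ (e ^ t)]

/-- The `n`-tuples `t` of rational numbers in `[a, b]` with denominators at most `T` for which some nonzero polynomial `P`
in `6 n + 1` variables, of degree at most `d` in each variable and with integer coefficients of absolute value at most
`T ^ A`, has absolute value at most `T ^ (-B)` at the numbers `e`, `log t_j`, `t_j ^ e`, `e ^ (e t_j)`, `t_j ^ (e t_j)`,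
`e ^ t_j`, `e ^ (e ^ t_j)` (`j = 1, …, n`). -/
def Exceptional (d n : ℕ) (a b A B T : ℝ) : Set (Fin n → ℚ) :=
  {t | (∀ j, a ≤ t j ∧ t j ≤ b ∧ ((t j).den : ℝ) ≤ T) ∧
    ∃ P : MvPolynomial (Option (Fin n × Fin 6)) ℤ, P ≠ 0 ∧ (∀ x, P.degreeOf x ≤ d) ∧
      (∀ u, |((P.coeff u : ℤ) : ℝ)| ≤ T ^ A) ∧
      |MvPolynomial.aeval (fun x : Option (Fin n × Fin 6) =>
        x.elim e fun y => numbers (t y.1) y.2) P| ≤ T ^ (-B)}

theorem e_pos : 0 < e := Real.exp_pos 1

theorem log_e : Real.log e = 1 := Real.log_exp 1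

theorem irr_e : Irrational e := by
  have h := Pool.Agent.TH456.TM.transcendental_of_measT Pool.Agent.TH456.TM.measT_e
  have h2 : Transcendental ℤ (Real.exp 1) := by
    intro halg
    apply h
    exact halg.algebraMap
  have h3 : Transcendental ℚ (Real.exp 1) := fun hq => h2 ((IsFractionRing.isAlgebraic_iff ℤ ℚ ℝ).2 hq)
  exact h3.irrational

theorem numbers_eq (t : ℝ) (ht : 0 < t) (i : Fin 6) : numbers t i = Pool.Agent.TH456.PW.f6 e i t := by
  fin_cases i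
  · rfl
  · simp only [numbers, Pool.Agent.TH456.PW.f6]
    simp only [Fin.reduceFinMk, Matrix.cons_val]
    rw [Real.rpow_def_of_pos ht, mul_comm]
  · simp only [numbers, Pool.Agent.TH456.PW.f6]
    simp only [Fin.reduceFinMk, Matrix.cons_val]
    rw [Real.rpow_def_of_pos e_pos]
    congr 1
    ring
  · simp only [numbers, Pool.Agent.TH456.PW.f6]
    simp only [Fin.reduceFinMk, Matrix.cons_val]
    rw [Real.rpow_def_of_pos ht]
    congr 1
    ring
  · simp only [numbers, Pool.Agent.TH456.PW.f6]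
    simp only [Fin.reduceFinMk, Matrix.cons_val]
    rw [Real.rpow_def_of_pos e_pos, log_e, one_mul]
  · simp only [numbers, Pool.Agent.TH456.PW.f6]
    simp only [Fin.reduceFinMk, Matrix.cons_val]
    rw [Real.rpow_def_of_pos e_pos, Real.rpow_def_of_pos e_pos, log_e, one_mul, one_mul]

/-- The rational numbers `t` in `[a, b]` with denominator at most `T` for which some nonzero polynomial `P` in one variable
of degree at most `d`, with integer coefficients of absolute value at most `T ^ A`, satisfies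
`|P((e t) ^ (e t))| ≤ T ^ (-B)` or `|P(e ^ (e t))| ≤ T ^ (-B)` or `|P(e ^ (e ^ t))| ≤ T ^ (-B)`. -/
def ExceptionalOne (d : ℕ) (a b A B T : ℝ) : Set ℚ :=
  {t | a ≤ t ∧ t ≤ b ∧ (t.den : ℝ) ≤ T ∧ ∃ P : Polynomial ℤ, P ≠ 0 ∧ P.natDegree ≤ d ∧
    (∀ i, |((P.coeff i : ℤ) : ℝ)| ≤ T ^ A) ∧
    (|Polynomial.aeval ((e * t) ^ (e * t) : ℝ) P| ≤ T ^ (-B) ∨
      |Polynomial.aeval (e ^ (e * t) : ℝ) P| ≤ T ^ (-B) ∨
      |Polynomial.aeval (e ^ (e ^ (t : ℝ)) : ℝ) P| ≤ T ^ (-B))}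

theorem self_eq (t : ℝ) (ht : 0 < t) : (e * t) ^ (e * t) = Pool.Agent.TH456.PW.f1 e e t := by
  rw [Pool.Agent.TH456.PW.f1, Real.rpow_def_of_pos (mul_pos e_pos ht), Real.log_mul e_pos.ne' ht.ne', log_e]
  congr 1
  ring

theorem fix_eq (t : ℝ) : e ^ (e * t) = Pool.Agent.TH456.PW.f1 0 e t := by
  rw [Pool.Agent.TH456.PW.f1, Real.rpow_def_of_pos e_pos, log_e]
  congr 1
  ring

theorem tower_eq (t : ℝ) : e ^ (e ^ t) = Real.exp (Real.exp t) := by
  rw [Real.rpow_def_of_pos e_pos, Real.rpow_def_of_pos e_pos, log_e, one_mul, one_mul]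

theorem tower_indep (d : ℕ) (a b : ℝ) (ha : 0 < a) (hab : a < b) :
    Pool.Agent.TH818.AP.RIndep (fun (l : Fin (d + 1)) (t : ℝ) => Real.exp (Real.exp t) ^ (l : ℕ)) a b := by
  refine Pool.Agent.TH456.PW.rindep _ a b ha hab
    (fun l t _ => ((analyticAt_id (𝕜 := ℝ) (z := t)).rexp.rexp).pow _) Pool.Agent.TH456.PW.L5
    Pool.Agent.TH456.PW.L5_top Pool.Agent.TH456.PW.L5_o 3 rfl (fun l => ![((l : ℕ) : ℝ), 0, 0, 0, 0]) ?_ ?_
  · intro l
    refine Filter.Eventually.of_forall fun t => ?_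
    show Real.exp (Real.exp t) ^ (l : ℕ) =
      Real.exp (∑ k, ![((l : ℕ) : ℝ), 0, 0, 0, 0] k * Pool.Agent.TH456.PW.L5 k t)
    rw [Fin.sum_univ_five]
    simp only [Pool.Agent.TH456.PW.L5, Matrix.cons_val_zero, Matrix.cons_val_one, Matrix.cons_val]
    rw [← Real.exp_nat_mul]
    congr 1
    ring
  · intro l l' j j' h1 _
    have k0 := h1 0 (by decide)
    simp only [Matrix.cons_val_zero] at k0
    exact Fin.ext (by exact_mod_cast k0)

theorem one (d : ℕ) (a b A β : ℝ) (ha : 0 < a) (hab : a < b) (hA : 0 ≤ A) (hβ : 2 - 2 / ((d : ℝ) + 2) < β) :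
    ∃ B C : ℝ, ∀ T : ℝ, 1 ≤ T → (ExceptionalOne d a b A B T).Finite ∧
      ((ExceptionalOne d a b A B T).ncard : ℝ) ≤ C * T ^ β := by
  obtain ⟨B1, C1, h1⟩ := Pool.Agent.TH456.PW.poly1 (Pool.Agent.TH456.PW.f1 e e) a b hab
    (fun t ht => Pool.Agent.TH456.PW.f1_an _ _ t (lt_of_lt_of_le ha ht.1)) d
    (Pool.Agent.TH456.PW.f1_indep _ _ (Or.inl e_pos.ne') d a b ha hab) A β hA hβ
  obtain ⟨B2, C2, h2⟩ := Pool.Agent.TH456.PW.poly1 (Pool.Agent.TH456.PW.f1 0 e) a b hab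
    (fun t ht => Pool.Agent.TH456.PW.f1_an _ _ t (lt_of_lt_of_le ha ht.1)) d
    (Pool.Agent.TH456.PW.f1_indep _ _ (Or.inr e_pos.ne') d a b ha hab) A β hA hβ
  obtain ⟨B3, C3, h3⟩ := Pool.Agent.TH456.PW.poly1 (fun t => Real.exp (Real.exp t)) a b hab
    (fun t _ => (analyticAt_id (𝕜 := ℝ) (z := t)).rexp.rexp) d (tower_indep d a b ha hab) A β hA hβ
  refine ⟨max B1 (max B2 B3), C1 + C2 + C3, fun T hT => ?_⟩
  obtain ⟨hf1, hl1⟩ := h1 T hT
  obtain ⟨hf2, hl2⟩ := h2 T hT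
  obtain ⟨hf3, hl3⟩ := h3 T hT
  set S1 := Pool.Agent.TH456.PW.ExcP (Pool.Agent.TH456.PW.f1 e e) d a b A B1 T
  set S2 := Pool.Agent.TH456.PW.ExcP (Pool.Agent.TH456.PW.f1 0 e) d a b A B2 T
  set S3 := Pool.Agent.TH456.PW.ExcP (fun t => Real.exp (Real.exp t)) d a b A B3 T
  have hsub : ExceptionalOne d a b A (max B1 (max B2 B3)) T ⊆ S1 ∪ S2 ∪ S3 := by
    rintro t ⟨k1, k2, k3, P, hP, hd, hc, h | h | h⟩
    · refine Or.inl (Or.inl ⟨k1, k2, k3, P, hP, hd, hc, ?_⟩)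
      rw [self_eq _ (lt_of_lt_of_le ha k1)] at h
      exact h.trans (Real.rpow_le_rpow_of_exponent_le hT (neg_le_neg (le_max_left _ _)))
    · refine Or.inl (Or.inr ⟨k1, k2, k3, P, hP, hd, hc, ?_⟩)
      rw [fix_eq] at h
      exact h.trans (Real.rpow_le_rpow_of_exponent_le hT (neg_le_neg ((le_max_left _ _).trans (le_max_right _ _))))
    · refine Or.inr ⟨k1, k2, k3, P, hP, hd, hc, ?_⟩
      rw [tower_eq] at h
      exact h.trans (Real.rpow_le_rpow_of_exponent_le hT (neg_le_neg ((le_max_right _ _).trans (le_max_right _ _))))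
  have hfin : (S1 ∪ S2 ∪ S3).Finite := (hf1.union hf2).union hf3
  refine ⟨hfin.subset hsub, ?_⟩
  have h4 := Set.ncard_le_ncard hsub hfin
  have h5 := Set.ncard_union_le (S1 ∪ S2) S3
  have h6 := Set.ncard_union_le S1 S2
  have h7 : ((ExceptionalOne d a b A (max B1 (max B2 B3)) T).ncard : ℝ) ≤
      (S1.ncard : ℝ) + (S2.ncard : ℝ) + (S3.ncard : ℝ) := by
    exact_mod_cast h4.trans (h5.trans (Nat.add_le_add_right h6 _))
  rw [add_mul, add_mul]
  linarith

theorem several (d n : ℕ) (hn : 1 ≤ n) (a b A β : ℝ) (ha : 0 < a) (hab : a < b) (hA : 0 ≤ A)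
    (hβ : 2 - 2 / (((d : ℝ) + 1) ^ (6 * n + 1) + 1) < β) :
    ∃ B C : ℝ, ∀ T : ℝ, 1 ≤ T → (Exceptional d n a b A B T).Finite ∧
      ((Exceptional d n a b A B T).ncard : ℝ) ≤ C * T ^ (2 * ((n : ℝ) - 1) + β) := by
  obtain ⟨B, C, h⟩ := Pool.Agent.TH456.PW.polysG e
    (Pool.Agent.TH456.PW.goodConst Pool.Agent.TH456.TM.measT_e d)
    (Pool.Agent.TH456.PW.f6 e) a b hab
    (fun i t ht => Pool.Agent.TH456.PW.f6_an e i t (lt_of_lt_of_le ha ht.1))
    (Pool.Agent.TH456.PW.f6_indep e e_pos irr_e (by rw [log_e, mul_one]; exact irr_e) d a b ha hab) n hn A β hA hβ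
  refine ⟨B, C, fun T hT => ?_⟩
  obtain ⟨h1, h2⟩ := h T hT
  have hEq : Exceptional d n a b A B T =
      {t : Fin n → ℚ | (∀ j, a ≤ t j ∧ t j ≤ b ∧ ((t j).den : ℝ) ≤ T) ∧
      ∃ P : MvPolynomial (Option (Fin n × Fin 6)) ℤ, P ≠ 0 ∧ (∀ x, P.degreeOf x ≤ d) ∧
        (∀ u, |((P.coeff u : ℤ) : ℝ)| ≤ T ^ A) ∧
        |MvPolynomial.aeval (fun x : Option (Fin n × Fin 6) =>
          x.elim e fun y => Pool.Agent.TH456.PW.f6 e y.2 (t y.1)) P| ≤ T ^ (-B)} := by
    ext t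
    simp only [Exceptional, Set.mem_ofPred_eq]
    refine and_congr_right fun ht => ?_
    have hfun : (fun x : Option (Fin n × Fin 6) => x.elim e fun y => numbers (t y.1) y.2) =
        (fun x : Option (Fin n × Fin 6) =>
          x.elim e fun y => Pool.Agent.TH456.PW.f6 e y.2 (t y.1)) := by
      funext x
      match x with
      | none => rfl
      | some y => exact numbers_eq _ (lt_of_lt_of_le ha (ht y.1).1) _
    rw [hfun]
  rw [hEq]
  exact ⟨h1, h2⟩

/-- Let `0 < a < b`, `A ≥ 0` and `d` a natural number.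
(1) Let `β > 2 - 2 / (d + 2)`. There are `B`, `C` such that for all `T ≥ 1`, for all but at most `C T ^ β` of the rational
numbers `t` in `[a, b]` with denominator at most `T`, every nonzero integer polynomial `P` of degree at most `d` with
coefficients of absolute value at most `T ^ A` satisfies `|P(y)| > T ^ (-B)` for `y = x ^ x`, `x = e t`, for
`y = e ^ (e t)` and for `y = e ^ (e ^ t)`.
(2) Let `n ≥ 1` and `β > 2 - 2 / ((d + 1) ^ (6 n + 1) + 1)`. There are `B`, `C` such that for all `T ≥ 1`, for all but at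
most `C T ^ (2 (n - 1) + β)` of the `n`-tuples `t` of rational numbers in `[a, b]` with denominators at most `T`, every
nonzero integer polynomial in `6 n + 1` variables of degree at most `d` in each variable with coefficients of absolute
value at most `T ^ A` has absolute value more than `T ^ (-B)` at the numbers `e`, `log t_j`, `t_j ^ e`, `e ^ (e t_j)`,
`t_j ^ (e t_j)`, `e ^ t_j`, `e ^ (e ^ t_j)`.
(3) `e ^ (e t) t ^ (e t) = (e t) ^ (e t)`. -/
theorem result (a b A : ℝ) (ha : 0 < a) (hab : a < b) (hA : 0 ≤ A) (d : ℕ) :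
    (∀ β : ℝ, 2 - 2 / ((d : ℝ) + 2) < β →
      ∃ B C : ℝ, ∀ T : ℝ, 1 ≤ T → (ExceptionalOne d a b A B T).Finite ∧
        ((ExceptionalOne d a b A B T).ncard : ℝ) ≤ C * T ^ β) ∧
    (∀ (n : ℕ) (β : ℝ), 1 ≤ n → 2 - 2 / (((d : ℝ) + 1) ^ (6 * n + 1) + 1) < β →
      ∃ B C : ℝ, ∀ T : ℝ, 1 ≤ T → (Exceptional d n a b A B T).Finite ∧
        ((Exceptional d n a b A B T).ncard : ℝ) ≤ C * T ^ (2 * ((n : ℝ) - 1) + β)) ∧
    (∀ t : ℝ, 0 < t → numbers t 2 * numbers t 3 = (e * t) ^ (e * t)) := by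
  refine ⟨fun β hβ => one d a b A β ha hab hA hβ, fun n β hn hβ => several d n hn a b A β ha hab hA hβ, ?_⟩
  intro t ht
  simp only [numbers, Matrix.cons_val]
  exact (Real.mul_rpow e_pos.le ht.le).symm

end Pool.Agent.Results.MP_58ae59_nt.AlmostAllRationalMultiples
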