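import Pool.Agent.TH426.TF.Dbl

/-!
# The numbers `e ^ (c e ^ (i r b))`

Let `b ≠ 0` be a real algebraic number. If `c, d ≠ 0` are algebraic, `|d|² / |c|²` is rational, `r, s`
are rational and `e ^ (c e ^ (i r b))`, `e ^ (d e ^ (i s b))` are algebraic, then `s = r` and `d` is a
rational multiple of `c`, or `s = -r` and `d` is a rational multiple of the conjugate of `c`.

In particular at most one positive rational number `r` is such that `e ^ (e ^ (i r b))` is algebraic.

Proof: the exponents `c e ^ (i r b)` lie on the circle of radius `|c|` and are algebraic over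
`ℚ(cos b)`. By complex conjugation one gets a singular `2 × 2` matrix of logarithms of algebraic
numbers over a field of transcendence degree one, to which the theorem of Brownawell and
Waldschmidt applies.
-/

set_option autoImplicit false

namespace Pool.Agent.Results.MP_58ae59_nt.ImaginaryDirection

theorem result :
    ∀ b : ℝ, IsAlgebraic ℚ b → b ≠ 0 →
      (∀ (c d : ℂ) (r s : ℚ), IsAlgebraic ℚ c → IsAlgebraic ℚ d → c ≠ 0 → d ≠ 0 →
        (∃ q : ℚ, ‖d‖ ^ 2 = q * ‖c‖ ^ 2) →
        IsAlgebraic ℚ (Complex.exp (c * Complex.exp (r * (b * Complex.I)))) →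
        IsAlgebraic ℚ (Complex.exp (d * Complex.exp (s * (b * Complex.I)))) →
        (s = r ∧ ∃ q : ℚ, d = q * c) ∨ (s = -r ∧ ∃ q : ℚ, d = q * (starRingEnd ℂ) c)) ∧
      -- special case `c = d = 1`
      (∀ r s : ℚ, 0 < r → 0 < s →
        IsAlgebraic ℚ (Complex.exp (Complex.exp (r * (b * Complex.I)))) →
        IsAlgebraic ℚ (Complex.exp (Complex.exp (s * (b * Complex.I)))) → r = s) := by
  intro b hb hb0
  refine ⟨fun c d r s hc hd hc0 hd0 hq er es =>
    P426.TF.imag hb hb0 hc hd hc0 hd0 hq er es, ?_⟩
  intro r s hr hs er es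
  rcases P426.TF.imag hb hb0 (c := 1) (d := 1) isAlgebraic_one isAlgebraic_one one_ne_zero
    one_ne_zero ⟨1, by simp⟩ (by simpa using er) (by simpa using es) with ⟨h, -⟩ | ⟨h, -⟩
  · exact h.symm
  · linarith

end Pool.Agent.Results.MP_58ae59_nt.ImaginaryDirection
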