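import Pool.Agent.TH975.LR.Rec
import Pool.Agent.H340R2.LW

/-!
# A zero-one law for linear recurrence sequences

Let `S(k) = Σ_i P_i(k) z_i ^ k` (`k` an integer) with complex polynomials `P_i` and complex numbers
`z_i ≠ 0` no ratio of which is a root of unity. Either all values `S(k)` are linear forms in `1` and
logarithms of algebraic numbers (the trivial case, described exactly), or at most `4 N ^ (1 - δ)` of
every `N` consecutive integers `k` have this property; `δ > 0` depends only on the number of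
parameters. In the second case `exp (S(k))` is transcendental for the other `k`.

Examples: `exp (A(x) e ^ x + B(x))` with complex polynomials `A ≠ 0`, `B`, where `x` runs through an
arithmetic progression with algebraic step (for `A = 1`, `B = 0`, `x = 1` this is `e ^ e`) and
`t e ^ (e ^ k) π ^ (π ^ k)`.
-/

namespace Pool.Agent.Results.MP_58ae59_nt.LinearRecurrences

open Polynomial

/-- `S(k) = Σ_i P_i(k) z_i ^ k` -/
noncomputable def S {h : ℕ} (z : Fin h → ℂ) (P : Fin h → ℂ[X]) (k : ℤ) : ℂ :=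
  ∑ i, (P i).eval (k : ℂ) * z i ^ k

/-- the linear combinations of `1` and of logarithms of algebraic numbers, with algebraic
coefficients -/
noncomputable def Lam : Submodule (algebraicClosure ℚ ℂ) ℂ :=
  Submodule.span (algebraicClosure ℚ ℂ) ({1} ∪ {w : ℂ | IsAlgebraic ℚ (Complex.exp w)})

/-- the numbers `exp w`, `w ∈ Lam`, in other words the numbers `e ^ γ α_1 ^ β_1 ⋯ α_m ^ β_m` with
algebraic `γ`, `α_i ≠ 0`, `β_i` -/
def Prods : Set ℂ := {x | ∃ w ∈ Lam, Complex.exp w = x}

/-- the `z_i` are not zero and no ratio is a root of unity -/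
def Nondegenerate {h : ℕ} (z : Fin h → ℂ) : Prop :=
  (∀ i, z i ≠ 0) ∧ ∀ i j, i ≠ j → ∀ d : ℕ, 1 ≤ d → z i ^ d ≠ z j ^ d

/-- the trivial case: the `z_i` which occur are algebraic, the coefficients of the `P_i` are linear
forms in `1` and logarithms of algebraic numbers -/
def Trivial {h : ℕ} (z : Fin h → ℂ) (P : Fin h → ℂ[X]) : Prop :=
  ∀ i, P i ≠ 0 → IsAlgebraic ℚ (z i) ∧ ∀ m, (P i).coeff m ∈ Lam

open Classical in
/-- the number of `M < k ≤ M + N` with a given property -/
noncomputable def count (p : ℤ → Prop) (M : ℤ) (N : ℕ) : ℕ :=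
  ((Finset.Ioc M (M + N)).filter p).card

theorem mono {p q : ℤ → Prop} (h : ∀ k, p k → q k) (M : ℤ) (N : ℕ) : count p M N ≤ count q M N := by
  classical
  unfold count
  apply Finset.card_le_card
  intro k hk
  rw [Finset.mem_filter] at hk ⊢
  exact ⟨hk.1, h k hk.2⟩

theorem lam_of_prods {w : ℂ} (h : Complex.exp w ∈ Prods) : w ∈ Lam := by
  obtain ⟨v, hv, hv'⟩ := h
  rw [Complex.exp_eq_exp_iff_exists_int] at hv'
  obtain ⟨k, hk⟩ := hv'
  have h4 : w = v - k * (2 * Real.pi * Complex.I) := by rw [hk]; ring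
  rw [h4]
  refine Submodule.sub_mem _ hv (Submodule.subset_span (Or.inr ?_))
  show IsAlgebraic ℚ (Complex.exp (k * (2 * Real.pi * Complex.I)))
  rw [Complex.exp_int_mul_two_pi_mul_I]
  exact isAlgebraic_one

theorem result :
    (∀ R : ℕ, ∃ δ : ℝ, 0 < δ ∧ ∀ (h : ℕ) (z : Fin h → ℂ) (P : Fin h → ℂ[X]), Nondegenerate z →
      ∑ i, ((P i).natDegree + 1) ≤ R → ¬ Trivial z P → ∀ (M : ℤ) (N : ℕ),
        (count (fun k => S z P k ∈ Lam) M N : ℝ) ≤ 4 * (N : ℝ) ^ (1 - δ)) ∧
    (∀ (h : ℕ) (z : Fin h → ℂ) (P : Fin h → ℂ[X]), Trivial z P → ∀ k : ℤ, S z P k ∈ Lam) ∧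
    (∀ D : ℕ, ∃ δ : ℝ, 0 < δ ∧ ∀ A B : ℂ[X], A ≠ 0 → A.natDegree ≤ D → B.natDegree ≤ D →
      ∀ u s : ℂ, IsAlgebraic ℚ s → s ≠ 0 → ∀ (M : ℤ) (N : ℕ),
        (count (fun k => Complex.exp (A.eval (u + k * s) * Complex.exp (u + k * s) +
          B.eval (u + k * s)) ∈ Prods) M N : ℝ) ≤ 4 * (N : ℝ) ^ (1 - δ)) ∧
    (∃ δ : ℝ, 0 < δ ∧ ∀ t : ℂ, t ≠ 0 → ∀ (M : ℤ) (N : ℕ),
      (count (fun k => t * ((Real.exp (Real.exp 1 ^ k) * Real.pi ^ (Real.pi ^ k) : ℝ) : ℂ) ∈ Prods)
        M N : ℝ) ≤ 4 * (N : ℝ) ^ (1 - δ)) ∧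
    (∀ x : ℂ, x ≠ 0 → IsAlgebraic ℚ x → x ∈ Prods) := by
  classical
  have h1 : ∀ R : ℕ, ∃ δ : ℝ, 0 < δ ∧ ∀ (h : ℕ) (z : Fin h → ℂ) (P : Fin h → ℂ[X]),
      Nondegenerate z → ∑ i, ((P i).natDegree + 1) ≤ R → ¬ Trivial z P → ∀ (M : ℤ) (N : ℕ),
        (count (fun k => S z P k ∈ Lam) M N : ℝ) ≤ 4 * (N : ℝ) ^ (1 - δ) := by
    intro R
    refine ⟨1 / 2 ^ (Pool.Agent.TH975.EP.KM R), by positivity, ?_⟩
    intro h z P hnd hR hT M N
    exact Pool.Agent.TH975.EC.lrs R z hnd.1 hnd.2 P hR hT M N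
  have he : ¬ IsAlgebraic ℚ (Complex.exp 1) := Pool.Agent.H340R2.LW.transcendental_exp_one_complex
  refine ⟨h1, fun h z P hE k => Pool.Agent.TH975.EC.excR_mem z P hE k, ?_, ?_, ?_⟩
  · intro D
    obtain ⟨δ, hδ, hD⟩ := h1 (2 * D + 2)
    refine ⟨δ, hδ, fun A B hA hAD hBD u s hs hs0 M N => ?_⟩
    have hes : ¬ IsAlgebraic ℚ (Complex.exp s) :=
      Pool.Agent.H340R2.LW.transcendental_cexp s hs hs0
    have hq : (Polynomial.C s * X + Polynomial.C u).natDegree = 1 := natDegree_linear hs0
    have hqd : ∀ p : ℂ[X], (p.comp (Polynomial.C s * X + Polynomial.C u)).natDegree =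
        p.natDegree := fun p => by rw [natDegree_comp, hq, mul_one]
    have hA0 : Polynomial.C (Complex.exp u) * A.comp (Polynomial.C s * X + Polynomial.C u) ≠ 0 := by
      refine mul_ne_zero (C_ne_zero.2 (Complex.exp_ne_zero u)) ?_
      intro h0
      rcases comp_eq_zero_iff.1 h0 with h3 | ⟨-, h3⟩
      · exact hA h3
      · rw [h3, natDegree_C] at hq
        omega
    have h2 := hD 2 ![Complex.exp s, 1] ![Polynomial.C (Complex.exp u) *
        A.comp (Polynomial.C s * X + Polynomial.C u),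
        B.comp (Polynomial.C s * X + Polynomial.C u)] (by
      refine ⟨?_, ?_⟩
      · intro i
        fin_cases i
        · exact Complex.exp_ne_zero s
        · exact one_ne_zero
      · have h3 : ∀ d : ℕ, 1 ≤ d → Complex.exp s ^ d ≠ 1 := by
          intro d hd h3
          apply hes
          refine IsAlgebraic.of_pow hd ?_
          rw [h3]; exact isAlgebraic_one
        intro i j hij d hd
        fin_cases i <;> fin_cases j
        · exact absurd rfl hij
        · show Complex.exp s ^ d ≠ 1 ^ d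
          rw [one_pow]; exact h3 d hd
        · show 1 ^ d ≠ Complex.exp s ^ d
          rw [one_pow]; exact (h3 d hd).symm
        · exact absurd rfl hij) (by
      rw [Fin.sum_univ_two]
      show (Polynomial.C (Complex.exp u) *
        A.comp (Polynomial.C s * X + Polynomial.C u)).natDegree + 1 +
        ((B.comp (Polynomial.C s * X + Polynomial.C u)).natDegree + 1) ≤ 2 * D + 2
      rw [natDegree_C_mul (Complex.exp_ne_zero u), hqd, hqd]
      omega) (by
      intro hT
      exact hes (hT 0 hA0).1) M N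
    refine le_trans ?_ h2
    apply Nat.cast_le.2
    apply mono
    intro k hk
    have h4 : S ![Complex.exp s, 1] ![Polynomial.C (Complex.exp u) *
        A.comp (Polynomial.C s * X + Polynomial.C u),
        B.comp (Polynomial.C s * X + Polynomial.C u)] k =
        A.eval (u + k * s) * Complex.exp (u + k * s) + B.eval (u + k * s) := by
      unfold S
      rw [Fin.sum_univ_two]
      show (Polynomial.C (Complex.exp u) *
        A.comp (Polynomial.C s * X + Polynomial.C u)).eval (k : ℂ) * Complex.exp s ^ k +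
        (B.comp (Polynomial.C s * X + Polynomial.C u)).eval (k : ℂ) * 1 ^ k = _
      rw [one_zpow, mul_one, eval_mul, eval_C, eval_comp, eval_comp, eval_add, eval_mul, eval_C,
        eval_X, eval_C, Complex.exp_add, Complex.exp_int_mul, mul_comm s, add_comm ((k : ℂ) * s)]
      ring
    rw [h4]
    exact lam_of_prods hk
  · obtain ⟨δ, hδ, hD⟩ := h1 3
    refine ⟨δ, hδ, fun t ht M N => ?_⟩
    have hpi : (0 : ℝ) < Real.pi := Real.pi_pos
    have h3 : ∀ d : ℕ, 1 ≤ d → Real.exp 1 ^ d < Real.pi ^ d := by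
      intro d hd
      apply pow_lt_pow_left₀ _ (Real.exp_pos 1).le (by omega)
      have := Real.exp_one_lt_d9
      have := Real.pi_gt_three
      linarith
    have h4 : ∀ d : ℕ, 1 ≤ d → 1 < Real.exp 1 ^ d := by
      intro d hd
      exact one_lt_pow₀ (Real.one_lt_exp_iff.2 one_pos) (by omega)
    have hec : Complex.exp 1 = ((Real.exp 1 : ℝ) : ℂ) := by
      rw [Complex.ofReal_exp]; simp
    have hreal : ∀ i : Fin 3, (![Complex.exp 1, (Real.pi : ℂ), 1] : Fin 3 → ℂ) i =
        (((![Real.exp 1, Real.pi, 1] : Fin 3 → ℝ) i : ℝ) : ℂ) := by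
      intro i
      fin_cases i
      · exact hec
      · rfl
      · show (1 : ℂ) = ((1 : ℝ) : ℂ)
        norm_num
    have h2 := hD 3 ![Complex.exp 1, (Real.pi : ℂ), 1] ![Polynomial.C 1,
      Polynomial.C ((Real.log Real.pi : ℝ) : ℂ), Polynomial.C (Complex.log t)] (by
      refine ⟨?_, ?_⟩
      · intro i
        fin_cases i
        · exact Complex.exp_ne_zero 1
        · show (Real.pi : ℂ) ≠ 0
          exact_mod_cast hpi.ne'
        · exact one_ne_zero
      · intro i j hij d hd
        rw [hreal, hreal]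
        have key : ((![Real.exp 1, Real.pi, 1] : Fin 3 → ℝ) i) ^ d ≠
            ((![Real.exp 1, Real.pi, 1] : Fin 3 → ℝ) j) ^ d := by
          have a1 := h3 d hd
          have a2 := h4 d hd
          fin_cases i <;> fin_cases j
          · exact absurd rfl hij
          · show Real.exp 1 ^ d ≠ Real.pi ^ d
            exact a1.ne
          · show Real.exp 1 ^ d ≠ 1 ^ d
            rw [one_pow]; exact a2.ne'
          · show Real.pi ^ d ≠ Real.exp 1 ^ d
            exact a1.ne'
          · exact absurd rfl hij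
          · show Real.pi ^ d ≠ 1 ^ d
            rw [one_pow]; exact (a2.trans a1).ne'
          · show 1 ^ d ≠ Real.exp 1 ^ d
            rw [one_pow]; exact a2.ne
          · show 1 ^ d ≠ Real.pi ^ d
            rw [one_pow]; exact (a2.trans a1).ne
          · exact absurd rfl hij
        exact_mod_cast key) (by
      rw [Fin.sum_univ_three]
      show (Polynomial.C (1 : ℂ)).natDegree + 1 +
        ((Polynomial.C ((Real.log Real.pi : ℝ) : ℂ)).natDegree + 1) +
        ((Polynomial.C (Complex.log t)).natDegree + 1) ≤ 3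
      rw [natDegree_C, natDegree_C, natDegree_C]) (by
      intro hT
      refine he (hT 0 ?_).1
      show Polynomial.C (1 : ℂ) ≠ 0
      rw [C_1]; exact one_ne_zero) M N
    refine le_trans ?_ h2
    apply Nat.cast_le.2
    apply mono
    intro k hk
    apply lam_of_prods
    have h5 : Complex.exp (S ![Complex.exp 1, (Real.pi : ℂ), 1] ![Polynomial.C 1,
        Polynomial.C ((Real.log Real.pi : ℝ) : ℂ), Polynomial.C (Complex.log t)] k) =
        t * ((Real.exp (Real.exp 1 ^ k) * Real.pi ^ (Real.pi ^ k) : ℝ) : ℂ) := by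
      unfold S
      rw [Fin.sum_univ_three]
      show Complex.exp ((Polynomial.C (1 : ℂ)).eval (k : ℂ) * Complex.exp 1 ^ k +
        (Polynomial.C ((Real.log Real.pi : ℝ) : ℂ)).eval (k : ℂ) * (Real.pi : ℂ) ^ k +
        (Polynomial.C (Complex.log t)).eval (k : ℂ) * 1 ^ k) = _
      rw [eval_C, eval_C, eval_C, one_zpow, mul_one, one_mul, Complex.exp_add, Complex.exp_log ht,
        mul_comm t, Complex.exp_add, Real.rpow_def_of_pos hpi, hec]
      push_cast
      rfl
    rw [h5]
    exact hk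
  · intro x hx hxa
    exact ⟨Complex.log x, Submodule.subset_span (Or.inr (by
      show IsAlgebraic ℚ (Complex.exp (Complex.log x))
      rw [Complex.exp_log hx]; exact hxa)), Complex.exp_log hx⟩

end Pool.Agent.Results.MP_58ae59_nt.LinearRecurrences
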