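import Pool.Agent.TH456.TM.E

/-!
# The numbers `e^(e + r)`, `r` rational

They are simultaneously badly approximable by algebraic numbers of bounded degree (in particular by
rational numbers), and near misses are rare.
-/

set_option autoImplicit false

namespace Pool.Agent.Results.MP_58ae59_nt.ShiftedExponents

open Polynomial

/-- The height of `P ∈ ℤ[X]`: the largest absolute value of a coefficient. -/
noncomputable def height (P : ℤ[X]) : ℕ := P.support.sup fun i => (P.coeff i).natAbs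

/-- The irreducible polynomials `P ∈ ℤ[X]` of degree at most `D`, normalised to have positive
leading coefficient (one of `P`, `-P`). -/
def Irr (D : ℕ) : Set ℤ[X] := {P | Irreducible P ∧ P.natDegree ≤ D ∧ 0 < P.leadingCoeff}

/-- The number `e^(e + r)`. -/
noncomputable def num (r : ℚ) : ℝ := Real.exp (Real.exp 1 + (r : ℝ))

/-- The near relations: the pairs `(r, P)`, `r ∈ R`, `P` in `Irr D` of height at most `Y`, with
`|P(e^(e + r))| ≤ (height P) ^ (-w)`. -/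
def Near (R : Finset ℚ) (D : ℕ) (w Y : ℝ) : Set (ℚ × ℤ[X]) :=
  {p | p.1 ∈ R ∧ p.2 ∈ Irr D ∧ |aeval (num p.1) p.2| ≤ (height p.2 : ℝ) ^ (-w) ∧
    (height p.2 : ℝ) ≤ Y}

lemma split (r : ℚ) : ((num r : ℝ) : ℂ) =
    ((Real.exp (Real.exp 1) : ℝ) : ℂ) * ((Real.exp (r : ℝ) : ℝ) : ℂ) := by
  rw [num, Real.exp_add, Complex.ofReal_mul]

lemma meas (r s : ℚ) (hrs : r ≠ s) : Pool.Agent.TH456.TM.MeasT
    (((Real.exp (s : ℝ) : ℝ) : ℂ) / ((Real.exp (r : ℝ) : ℝ) : ℂ)) := by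
  obtain ⟨q, hq⟩ : ∃ q : ℚ, q = s - r := ⟨_, rfl⟩
  have hq0 : q ≠ 0 := by rw [hq]; exact sub_ne_zero.2 hrs.symm
  have h1 : ((Real.exp (s : ℝ) : ℝ) : ℂ) / ((Real.exp (r : ℝ) : ℝ) : ℂ) =
      ((Real.exp 1 ^ (q : ℝ) : ℝ) : ℂ) := by
    rw [← Complex.ofReal_div, ← Real.exp_sub, Real.exp_one_rpow, hq]
    push_cast
    rfl
  rw [h1]
  exact Pool.Agent.TH456.TM.measT_rpow _ (Real.exp_pos 1) Pool.Agent.TH456.TM.measT_e q hq0

/-- **The numbers `e^(e + r)`.** -/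
theorem result (R : Finset ℚ) (D : ℕ) : ∃ κ c : ℝ, 0 < κ ∧ 0 < c ∧
    (∀ r ∈ R, ∀ s ∈ R, r ≠ s → ∀ P Q : ℤ[X], P ≠ 0 → Q ≠ 0 → P.natDegree ≤ D → Q.natDegree ≤ D →
      ∀ H : ℝ, (height P : ℝ) ≤ H → (height Q : ℝ) ≤ H →
        c * H ^ (-κ) ≤ max |aeval (num r) P| |aeval (num s) Q|) ∧
    (∀ w ρ : ℝ, 1 < ρ → ρ < w / κ → ∃ C : ℝ, ∀ Y : ℝ, 3 ≤ Y → (Near R D w Y).Finite ∧
      ((Near R D w Y).ncard : ℝ) ≤ Real.log (Real.log Y) / Real.log ρ + C) := by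
  obtain ⟨κ, hκ, h⟩ := Pool.Agent.TH456.TM.fam_mul R (fun r => ((Real.exp (r : ℝ) : ℝ) : ℂ))
    (fun r _ => by exact_mod_cast (Real.exp_pos _).ne')
    (fun r _ s _ hrs => meas r s hrs) _ Pool.Agent.TH456.TM.measT_pi D
  obtain ⟨c, hc, h1, h2⟩ := h ((Real.exp (Real.exp 1) : ℝ) : ℂ)
    (by exact_mod_cast (Real.exp_pos _).ne')
  refine ⟨κ, c, hκ, hc, ?_, ?_⟩
  · intro r hr s hs hrs P Q hP hQ hPD hQD H hPH hQH
    rw [Pool.Agent.TH456.TM.abs_aeval, Pool.Agent.TH456.TM.abs_aeval, split, split]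
    exact h1 r hr s hs hrs P Q hP hQ hPD hQD H hPH hQH
  · intro w ρ hρ hρw
    obtain ⟨C, hC⟩ := Pool.Agent.TH456.TM.sparse_fam R
      (fun r => ((Real.exp (Real.exp 1) : ℝ) : ℂ) * ((Real.exp (r : ℝ) : ℝ) : ℂ)) D κ hκ
      ⟨c, hc, fun u hu v hv P hP Q hQ hne H hPH hQH => by
        by_cases huv : u = v
        · subst huv
          have hPQ : P ≠ Q := fun h => hne (by rw [h])
          exact h2 u hu P hP Q hQ hPQ H hPH hQH
        · exact h1 u hu v hv huv P Q hP.1.ne_zero hQ.1.ne_zero hP.2.1 hQ.2.1 H hPH hQH⟩ w ρ hρ hρw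
    refine ⟨C, fun Y hY => ?_⟩
    have hset : Near R D w Y = {p ∈ Pool.Agent.TH456.TM.NearF R
        (fun r => ((Real.exp (Real.exp 1) : ℝ) : ℂ) * ((Real.exp (r : ℝ) : ℝ) : ℂ)) D w |
        (Pool.Agent.TH456.TM.ht p.2 : ℝ) ≤ Y} := by
      ext p
      unfold Near
      rw [Set.mem_ofPred_eq, Pool.Agent.TH456.TM.abs_aeval, split]
      constructor
      · rintro ⟨a, b, c, d⟩
        exact ⟨⟨a, b, c⟩, d⟩
      · rintro ⟨⟨a, b, c⟩, d⟩
        exact ⟨a, b, c, d⟩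
    rw [hset]
    exact hC Y hY

end Pool.Agent.Results.MP_58ae59_nt.ShiftedExponents
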